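import Mathlib
import Pool.Agent.Y89.TS.Stm

/-!
# The Tannaka-Schrijver theorem

The average over the unitary group (Haar measure) of the approximating functions.
-/

set_option autoImplicit false

namespace Pool.Agent.Y657.TS

open Matrix Finset MeasureTheory
open Pool.Agent.Y89.TS

section Act

variable {ι : Type} [Fintype ι]

lemma prod_sum_fun {κ : Type} [Fintype κ] [DecidableEq κ] (F : κ → ι → ℂ) :
    ∏ s, ∑ j, F s j = ∑ J : κ → ι, ∏ s, F s (J s) := by
  classical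
  rw [Finset.prod_univ_sum, Fintype.piFinset_univ]

lemma act_mul (g h : Matrix ι ι ℂ) {k : ℕ} (f : (Fin k → ι) → ℂ) :
    act (g * h) f = act g (act h f) := by
  funext I
  simp only [act, Matrix.mul_apply]
  have h1 : ∀ K : Fin k → ι, ∏ s, ∑ j, g (I s) j * h j (K s) =
      ∑ J : Fin k → ι, (∏ s, g (I s) (J s)) * ∏ s, h (J s) (K s) := by
    intro K
    rw [prod_sum_fun (fun s j => g (I s) j * h j (K s))]
    exact Finset.sum_congr rfl fun J _ => Finset.prod_mul_distrib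
  simp only [h1, Finset.sum_mul, Finset.mul_sum]
  rw [Finset.sum_comm]
  refine Finset.sum_congr rfl fun J _ => Finset.sum_congr rfl fun K _ => ?_
  ring

lemma act_one [DecidableEq ι] {k : ℕ} (f : (Fin k → ι) → ℂ) :
    act (1 : Matrix ι ι ℂ) f = f := by
  funext I
  rw [act, Finset.sum_eq_single I]
  · simp
  · intro J _ hJ
    obtain ⟨s, hs⟩ := Function.ne_iff.1 hJ
    rw [Finset.prod_eq_zero (Finset.mem_univ s), zero_mul]
    exact Matrix.one_apply_ne hs.symm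
  · intro h
    exact absurd (Finset.mem_univ I) h

/-- products -/
lemma act_tensor (g : Matrix ι ι ℂ) {k l : ℕ} (f : (Fin k → ι) → ℂ) (f' : (Fin l → ι) → ℂ)
    (I : Fin k → ι) (I' : Fin l → ι) :
    act g (fun J : Fin (k + l) → ι =>
      f (fun i => J (Fin.castAdd l i)) * f' (fun i => J (Fin.natAdd k i))) (Fin.append I I') =
      act g f I * act g f' I' := by
  simp only [act]
  rw [Finset.sum_mul_sum, ← Finset.sum_product', ← (Fin.appendEquiv k l (α := ι)).sum_comp]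
  rw [Finset.univ_product_univ]
  refine Finset.sum_congr rfl fun J _ => ?_
  have h1 : (Fin.appendEquiv k l) J = Fin.append J.1 J.2 := rfl
  rw [h1, Fin.prod_univ_add]
  simp only [Fin.append_left, Fin.append_right]
  ring

end Act

section U

variable {ι : Type} [Fintype ι] [DecidableEq ι]

lemma entry_le (g : Matrix.unitaryGroup ι ℂ) (i j : ι) : ‖(g : Matrix ι ι ℂ) i j‖ ≤ 1 :=
  entry_norm_bound_of_unitary g.2 i j

instance compU : CompactSpace (Matrix.unitaryGroup ι ℂ) := by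
  have h : IsCompact ((Matrix.unitaryGroup ι ℂ : Submonoid (Matrix ι ι ℂ)) : Set (Matrix ι ι ℂ)) := by
    refine IsCompact.of_isClosed_subset (s := Set.pi Set.univ fun _ : ι =>
      Set.pi Set.univ fun _ : ι => Metric.closedBall (0 : ℂ) 1) ?_ ?_ ?_
    · exact isCompact_univ_pi fun _ => isCompact_univ_pi fun _ => isCompact_closedBall _ _
    · have h1 : ((Matrix.unitaryGroup ι ℂ : Submonoid (Matrix ι ι ℂ)) : Set (Matrix ι ι ℂ)) =
          {g | gᴴ * g = 1} := by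
        ext g
        exact Matrix.mem_unitaryGroup_iff'
      rw [h1]
      exact isClosed_eq (by fun_prop) continuous_const
    · intro g hg i _ j _
      rw [mem_closedBall_zero_iff]
      exact entry_norm_bound_of_unitary hg i j
  exact isCompact_iff_compactSpace.1 h

end U

section Avg

variable {ι : Type} [Fintype ι] [DecidableEq ι]

noncomputable local instance : MeasurableSpace (Matrix.unitaryGroup ι ℂ) := borel _
local instance : BorelSpace (Matrix.unitaryGroup ι ℂ) := ⟨rfl⟩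

/-- the Haar measure of the unitary group -/
noncomputable def mu (ι : Type) [Fintype ι] [DecidableEq ι] :
    @Measure (Matrix.unitaryGroup ι ℂ) (borel _) :=
  Measure.haar

instance : IsFiniteMeasure (mu ι) := by
  unfold mu
  infer_instance

lemma mu_pos : 0 < (mu ι).real Set.univ := by
  rw [measureReal_def, ENNReal.toReal_pos_iff]
  refine ⟨?_, measure_lt_top _ _⟩
  unfold mu
  exact Measure.measure_univ_pos.2 (NeZero.ne _)

lemma cont_entry (i j : ι) :
    Continuous fun g : Matrix.unitaryGroup ι ℂ => (g : Matrix ι ι ℂ) i j := by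
  have h : Continuous fun g : Matrix.unitaryGroup ι ℂ => (g : Matrix ι ι ℂ) :=
    continuous_subtype_val
  exact h.matrix_elem i j

lemma integ {φ : Matrix.unitaryGroup ι ℂ → ℂ} (h : Continuous φ) : Integrable φ (mu ι) := by
  have hc : HasCompactSupport φ := HasCompactSupport.of_compactSpace φ
  exact h.integrable_of_hasCompactSupport hc

lemma inv_int (φ : Matrix.unitaryGroup ι ℂ → ℂ) (h : Matrix.unitaryGroup ι ℂ) :
    ∫ g, φ (h * g) ∂(mu ι) = ∫ g, φ g ∂(mu ι) := by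
  unfold mu
  exact integral_mul_left_eq_self φ h

/-- the average of a mixed tensor product of columns -/
noncomputable def FF {κ : Type} [Fintype κ] (t : κ → Bool) (K0 : κ → ι) : (κ → ι) → ℂ :=
  fun I => ∫ g : Matrix.unitaryGroup ι ℂ, ∏ s, cond (t s) ((g : Matrix ι ι ℂ) (I s) (K0 s))
    (starRingEnd ℂ ((g : Matrix ι ι ℂ) (I s) (K0 s))) ∂(mu ι)

lemma cont_cond (b : Bool) (i j : ι) : Continuous fun g : Matrix.unitaryGroup ι ℂ =>
    cond b ((g : Matrix ι ι ℂ) i j) (starRingEnd ℂ ((g : Matrix ι ι ℂ) i j)) := by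
  cases b
  · exact Complex.continuous_conj.comp (cont_entry i j)
  · exact cont_entry i j

lemma cont_prod {κ : Type} [Fintype κ] (t : κ → Bool) (I K0 : κ → ι) :
    Continuous fun g : Matrix.unitaryGroup ι ℂ => ∏ s, cond (t s) ((g : Matrix ι ι ℂ) (I s) (K0 s))
    (starRingEnd ℂ ((g : Matrix ι ι ℂ) (I s) (K0 s))) :=
  continuous_finsetProd _ fun s _ => cont_cond (t s) (I s) (K0 s)

lemma FF_inv {κ : Type} [Fintype κ] [DecidableEq κ] (t : κ → Bool) (K0 : κ → ι)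
    (h : Matrix ι ι ℂ) (hh : hᴴ * h = 1) : mact t h (FF t K0) = FF t K0 := by
  have hu : h ∈ Matrix.unitaryGroup ι ℂ := Matrix.mem_unitaryGroup_iff'.2 hh
  funext I
  have h1 : ∀ g : Matrix.unitaryGroup ι ℂ,
      ∑ J : κ → ι, (∏ s, cond (t s) (h (I s) (J s)) (starRingEnd ℂ (h (I s) (J s)))) *
        ∏ s, cond (t s) ((g : Matrix ι ι ℂ) (J s) (K0 s))
          (starRingEnd ℂ ((g : Matrix ι ι ℂ) (J s) (K0 s))) =
      ∏ s, cond (t s) ((h * (g : Matrix ι ι ℂ)) (I s) (K0 s))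
          (starRingEnd ℂ ((h * (g : Matrix ι ι ℂ)) (I s) (K0 s))) := by
    intro g
    have h2 : ∀ s, cond (t s) ((h * (g : Matrix ι ι ℂ)) (I s) (K0 s))
          (starRingEnd ℂ ((h * (g : Matrix ι ι ℂ)) (I s) (K0 s))) =
        ∑ j, cond (t s) (h (I s) j) (starRingEnd ℂ (h (I s) j)) *
          cond (t s) ((g : Matrix ι ι ℂ) j (K0 s)) (starRingEnd ℂ ((g : Matrix ι ι ℂ) j (K0 s))) := by
      intro s
      cases t s
      · simp only [cond_false, Matrix.mul_apply, map_sum, map_mul]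
      · simp only [cond_true, Matrix.mul_apply]
    rw [Finset.prod_congr rfl fun s _ => h2 s]
    rw [prod_sum_fun (fun s j => cond (t s) (h (I s) j) (starRingEnd ℂ (h (I s) j)) *
          cond (t s) ((g : Matrix ι ι ℂ) j (K0 s)) (starRingEnd ℂ ((g : Matrix ι ι ℂ) j (K0 s))))]
    exact Finset.sum_congr rfl fun J _ => Finset.prod_mul_distrib.symm
  have h3 := inv_int (ι := ι) (fun g => ∏ s, cond (t s) ((g : Matrix ι ι ℂ) (I s) (K0 s))
    (starRingEnd ℂ ((g : Matrix ι ι ℂ) (I s) (K0 s)))) ⟨h, hu⟩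
  have h4 : FF t K0 I = ∫ g : Matrix.unitaryGroup ι ℂ, ∏ s, cond (t s)
      ((g : Matrix ι ι ℂ) (I s) (K0 s))
      (starRingEnd ℂ ((g : Matrix ι ι ℂ) (I s) (K0 s))) ∂(mu ι) := rfl
  rw [h4, ← h3]
  have h5 : (fun g : Matrix.unitaryGroup ι ℂ => ∏ s, cond (t s)
      ((((⟨h, hu⟩ : Matrix.unitaryGroup ι ℂ) * g : Matrix.unitaryGroup ι ℂ) : Matrix ι ι ℂ)
        (I s) (K0 s))
      (starRingEnd ℂ ((((⟨h, hu⟩ : Matrix.unitaryGroup ι ℂ) * g : Matrix.unitaryGroup ι ℂ) :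
        Matrix ι ι ℂ) (I s) (K0 s)))) =
      fun g : Matrix.unitaryGroup ι ℂ =>
        ∑ J : κ → ι, (∏ s, cond (t s) (h (I s) (J s)) (starRingEnd ℂ (h (I s) (J s)))) *
        ∏ s, cond (t s) ((g : Matrix ι ι ℂ) (J s) (K0 s))
          (starRingEnd ℂ ((g : Matrix ι ι ℂ) (J s) (K0 s))) := by
    funext g
    rw [h1 g]
    rfl
  rw [h5, integral_finsetSum]
  · simp only [integral_const_mul]
    rfl
  · intro J _
    exact integ (continuous_const.mul (cont_prod t J K0))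

lemma FF_mem (h3 : S_eqv) (h4 : S_gl) {κ : Type} [Fintype κ] [DecidableEq κ] (t : κ → Bool)
    (K0 : κ → ι) : FF t K0 ∈ Submodule.span ℂ (Set.range (mtch (ι := ι) t)) :=
  h4 ι κ t _ (h3 ι κ t _ (fun g hg => FF_inv t K0 g hg))

lemma mono_mem (h3 : S_eqv) (h4 : S_gl) (h5 : S_lin)
    {A : ∀ k : ℕ, Submodule ℂ ((Fin k → ι) → ℂ)} (hA : TSys A) {k a b : ℕ} (J0 : Fin k → ι)
    {x : (Fin a → ι) → ℂ} (hx : x ∈ A a) {y : (Fin b → ι) → ℂ} (hy : y ∈ A b)
    (I1 : Fin a → ι) (J1 : Fin b → ι) :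
    (fun I : Fin k → ι => ∫ g : Matrix.unitaryGroup ι ℂ, (∏ s, (g : Matrix ι ι ℂ) (I s) (J0 s)) *
      (act (g : Matrix ι ι ℂ)ᴴ x I1 * starRingEnd ℂ (act (g : Matrix ι ι ℂ)ᴴ y J1)) ∂(mu ι)) ∈
      A k := by
  have key := h5 ι A hA k a b (FF (Sum.elim (fun _ : Fin k => true)
    (Sum.elim (fun _ : Fin a => false) fun _ : Fin b => true)) (Sum.elim J0 (Sum.elim I1 J1)))
    (FF_mem h3 h4 _ _) x _ hx (hA.conj b y hy)
  convert key using 1
  funext I
  have e1 : ∀ g : Matrix.unitaryGroup ι ℂ, (∏ s, (g : Matrix ι ι ℂ) (I s) (J0 s)) *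
      (act (g : Matrix ι ι ℂ)ᴴ x I1 * starRingEnd ℂ (act (g : Matrix ι ι ℂ)ᴴ y J1)) =
      ∑ J : Fin a → ι, ∑ J' : Fin b → ι, (x J * starRingEnd ℂ (y J')) *
        ∏ s, cond (Sum.elim (fun _ : Fin k => true)
          (Sum.elim (fun _ : Fin a => false) fun _ : Fin b => true) s)
          ((g : Matrix ι ι ℂ) (Sum.elim I (Sum.elim J J') s) (Sum.elim J0 (Sum.elim I1 J1) s))
          (starRingEnd ℂ ((g : Matrix ι ι ℂ) (Sum.elim I (Sum.elim J J') s)
            (Sum.elim J0 (Sum.elim I1 J1) s))) := by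
    intro g
    rw [act, act, map_sum, Finset.sum_mul_sum, Finset.mul_sum]
    refine Finset.sum_congr rfl fun J _ => ?_
    rw [Finset.mul_sum]
    refine Finset.sum_congr rfl fun J' _ => ?_
    simp only [map_mul, map_prod, Fintype.prod_sum_type, Sum.elim_inl, Sum.elim_inr, cond_true, cond_false,
      Matrix.conjTranspose_apply, Complex.star_def, Complex.conj_conj]
    ring
  rw [integral_congr_ae (Filter.Eventually.of_forall e1), integral_finsetSum]
  · refine Finset.sum_congr rfl fun J _ => ?_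
    rw [integral_finsetSum]
    · refine Finset.sum_congr rfl fun J' _ => ?_
      rw [integral_const_mul]
      simp only [FF]
      ring
    · intro J' _
      exact integ (continuous_const.mul (cont_prod _ _ _))
  · intro J _
    exact integ (continuous_finsetSum _ fun J' _ => continuous_const.mul (cont_prod _ _ _))

/-- the functions of the form `(g x)(I) * conj ((g y)(J))` -/
def MM (A : ∀ k : ℕ, Submodule ℂ ((Fin k → ι) → ℂ)) (hA : TSys A) :
    Submonoid C(Matrix.unitaryGroup ι ℂ, ℂ) where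
  carrier := {s | ∃ (a b : ℕ) (x : (Fin a → ι) → ℂ) (y : (Fin b → ι) → ℂ), x ∈ A a ∧ y ∈ A b ∧
    ∃ (I : Fin a → ι) (J : Fin b → ι), ∀ g : Matrix.unitaryGroup ι ℂ,
      s g = act (g : Matrix ι ι ℂ) x I * starRingEnd ℂ (act (g : Matrix ι ι ℂ) y J)}
  one_mem' := by
    refine ⟨0, 0, fun _ => 1, fun _ => 1, hA.unit, hA.unit, Fin.elim0, Fin.elim0, fun g => ?_⟩
    simp [act]
  mul_mem' := by
    rintro s s' ⟨a, b, x, y, hx, hy, I, J, h⟩ ⟨a', b', x', y', hx', hy', I', J', h'⟩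
    refine ⟨a + a', b + b', _, _, hA.mul a a' x x' hx hx', hA.mul b b' y y' hy hy',
      Fin.append I I', Fin.append J J', fun g => ?_⟩
    rw [act_tensor, act_tensor, ContinuousMap.mul_apply, h, h', map_mul]
    ring

omit [DecidableEq ι] in
lemma act_unit (g : Matrix ι ι ℂ) (I : Fin 0 → ι) : act g (fun _ : Fin 0 → ι => (1 : ℂ)) I = 1 := by
  simp [act]

lemma cont_act {k : ℕ} (x : (Fin k → ι) → ℂ) (I : Fin k → ι) :
    Continuous fun g : Matrix.unitaryGroup ι ℂ => act (g : Matrix ι ι ℂ) x I := by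
  unfold act
  exact continuous_finsetSum _ fun J _ =>
    (continuous_finsetProd _ fun s _ => cont_entry (I s) (J s)).mul continuous_const

/-- the generators -/
def gens (A : ∀ k : ℕ, Submodule ℂ ((Fin k → ι) → ℂ)) : Set C(Matrix.unitaryGroup ι ℂ, ℂ) :=
  {s | ∃ (l : ℕ) (x : (Fin l → ι) → ℂ), x ∈ A l ∧ ∃ I : Fin l → ι,
    ∀ g : Matrix.unitaryGroup ι ℂ, s g = act (g : Matrix ι ι ℂ) x I}

/-- the average belongs to the system -/
lemma avg_mem (h3 : S_eqv) (h4 : S_gl) (h5 : S_lin)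
    {A : ∀ k : ℕ, Submodule ℂ ((Fin k → ι) → ℂ)} (hA : TSys A) {k : ℕ} (J0 : Fin k → ι)
    {s : C(Matrix.unitaryGroup ι ℂ, ℂ)} (hs : s ∈ StarAlgebra.adjoin ℂ (gens A)) :
    (fun I : Fin k → ι => ∫ g : Matrix.unitaryGroup ι ℂ,
      (∏ r, (g : Matrix ι ι ℂ) (I r) (J0 r)) * s g⁻¹ ∂(mu ι)) ∈ A k := by
  have hc : ∀ (s : C(Matrix.unitaryGroup ι ℂ, ℂ)) (I : Fin k → ι),
      Continuous fun g : Matrix.unitaryGroup ι ℂ =>
        (∏ r, (g : Matrix ι ι ℂ) (I r) (J0 r)) * s g⁻¹ := fun s I =>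
    (continuous_finsetProd _ fun r _ => cont_entry (I r) (J0 r)).mul
      (s.continuous.comp continuous_inv)
  have hs' : s ∈ Submodule.span ℂ (Submonoid.closure (gens A ∪ star (gens A)) :
      Set C(Matrix.unitaryGroup ι ℂ, ℂ)) := by
    rw [← StarAlgebra.adjoin_eq_span]
    exact hs
  have hle : Submonoid.closure (gens A ∪ star (gens A)) ≤ MM A hA := by
    rw [Submonoid.closure_le]
    rintro u (hu | hu)
    · obtain ⟨l, x, hx, I, h⟩ := hu
      refine ⟨l, 0, x, fun _ => 1, hx, hA.unit, I, Fin.elim0, fun g => ?_⟩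
      rw [act_unit, map_one, mul_one]
      exact h g
    · obtain ⟨l, x, hx, I, h⟩ := hu
      refine ⟨0, l, fun _ => 1, x, hA.unit, hx, Fin.elim0, I, fun g => ?_⟩
      rw [act_unit, one_mul, ← h g]
      simp
  clear hs
  induction hs' using Submodule.span_induction with
  | mem u hu =>
    obtain ⟨a, b, x, y, hx, hy, I, J, h⟩ := hle hu
    have h1 := mono_mem h3 h4 h5 hA J0 hx hy I J
    convert h1 using 1
    funext I'
    refine integral_congr_ae (Filter.Eventually.of_forall fun g => ?_)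
    have h2 : ((g⁻¹ : Matrix.unitaryGroup ι ℂ) : Matrix ι ι ℂ) = (g : Matrix ι ι ℂ)ᴴ := rfl
    simp only [h g⁻¹, h2]
  | zero => 
    have : (fun I : Fin k → ι => ∫ g : Matrix.unitaryGroup ι ℂ,
      (∏ r, (g : Matrix ι ι ℂ) (I r) (J0 r)) * (0 : C(Matrix.unitaryGroup ι ℂ, ℂ)) g⁻¹ ∂(mu ι)) =
      0 := by
      funext I
      simp
    rw [this]
    exact (A k).zero_mem
  | add u v _ _ hu hv =>
    have : (fun I : Fin k → ι => ∫ g : Matrix.unitaryGroup ι ℂ,
      (∏ r, (g : Matrix ι ι ℂ) (I r) (J0 r)) * (u + v) g⁻¹ ∂(mu ι)) =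
      (fun I : Fin k → ι => ∫ g : Matrix.unitaryGroup ι ℂ,
      (∏ r, (g : Matrix ι ι ℂ) (I r) (J0 r)) * u g⁻¹ ∂(mu ι)) +
      (fun I : Fin k → ι => ∫ g : Matrix.unitaryGroup ι ℂ,
      (∏ r, (g : Matrix ι ι ℂ) (I r) (J0 r)) * v g⁻¹ ∂(mu ι)) := by
      funext I
      rw [Pi.add_apply, ← integral_add (integ (hc u I)) (integ (hc v I))]
      refine integral_congr_ae (Filter.Eventually.of_forall fun g => ?_)
      simp only [ContinuousMap.add_apply]
      ring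
    rw [this]
    exact (A k).add_mem hu hv
  | smul c u _ hu =>
    have : (fun I : Fin k → ι => ∫ g : Matrix.unitaryGroup ι ℂ,
      (∏ r, (g : Matrix ι ι ℂ) (I r) (J0 r)) * (c • u) g⁻¹ ∂(mu ι)) =
      c • (fun I : Fin k → ι => ∫ g : Matrix.unitaryGroup ι ℂ,
      (∏ r, (g : Matrix ι ι ℂ) (I r) (J0 r)) * u g⁻¹ ∂(mu ι)) := by
      funext I
      rw [Pi.smul_apply, smul_eq_mul, ← integral_const_mul]
      refine integral_congr_ae (Filter.Eventually.of_forall fun g => ?_)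
      simp only [ContinuousMap.smul_apply, smul_eq_mul]
      ring
    rw [this]
    exact (A k).smul_mem c hu

omit [Fintype ι] [DecidableEq ι] in
lemma prod_le (g : Matrix ι ι ℂ) (hg : ∀ i j, ‖g i j‖ ≤ 1) {k : ℕ} (I J : Fin k → ι) :
    ‖∏ s, g (I s) (J s)‖ ≤ 1 := by
  rw [norm_prod]
  exact Finset.prod_le_one (fun _ _ => norm_nonneg _) fun s _ => hg _ _

lemma approx (h3 : S_eqv) (h4 : S_gl) (h5 : S_lin)
    {A : ∀ k : ℕ, Submodule ℂ ((Fin k → ι) → ℂ)} (hA : TSys A) {k : ℕ} (f : (Fin k → ι) → ℂ)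
    {ε : ℝ} (_hε : 0 < ε) (s : (Fin k → ι) → C(Matrix.unitaryGroup ι ℂ, ℂ))
    (hs : ∀ J, s J ∈ StarAlgebra.adjoin ℂ (gens A))
    (hsa : ∀ J, ∀ g : Matrix.unitaryGroup ι ℂ, ‖act (g : Matrix ι ι ℂ) f J - s J g‖ ≤ ε) :
    ∃ v ∈ A k, ∀ I, ‖f I - v I‖ ≤ Fintype.card (Fin k → ι) * ε := by
  set m := (mu ι).real Set.univ with hm
  have hmpos : 0 < m := mu_pos
  set w : (Fin k → ι) → ((Fin k → ι) → ℂ) := fun J I => ∫ g : Matrix.unitaryGroup ι ℂ,
      (∏ r, (g : Matrix ι ι ℂ) (I r) (J r)) * s J g⁻¹ ∂(mu ι) with hw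
  have hwm : ∀ J, w J ∈ A k := fun J => avg_mem h3 h4 h5 hA J (hs J)
  refine ⟨(m : ℂ)⁻¹ • ∑ J, w J, (A k).smul_mem _ ((A k).sum_mem fun J _ => hwm J), fun I => ?_⟩
  have hc1 : ∀ J : Fin k → ι, Continuous fun g : Matrix.unitaryGroup ι ℂ =>
        (∏ r, (g : Matrix ι ι ℂ) (I r) (J r)) * s J g⁻¹ := fun J =>
    (continuous_finsetProd _ fun r _ => cont_entry (I r) (J r)).mul
      ((s J).continuous.comp continuous_inv)
  have e1 : (∑ J, w J) I = ∫ g : Matrix.unitaryGroup ι ℂ, ∑ J : Fin k → ι,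
      (∏ r, (g : Matrix ι ι ℂ) (I r) (J r)) * s J g⁻¹ ∂(mu ι) := by
    rw [integral_finsetSum _ fun J _ => integ (hc1 J), Finset.sum_apply]
  have e2 : (m : ℂ) * f I = ∫ g : Matrix.unitaryGroup ι ℂ, ∑ J : Fin k → ι,
      (∏ r, (g : Matrix ι ι ℂ) (I r) (J r)) * act ((g⁻¹ : Matrix.unitaryGroup ι ℂ) :
        Matrix ι ι ℂ) f J ∂(mu ι) := by
    have h1 : ∀ g : Matrix.unitaryGroup ι ℂ, ∑ J : Fin k → ι,
      (∏ r, (g : Matrix ι ι ℂ) (I r) (J r)) * act ((g⁻¹ : Matrix.unitaryGroup ι ℂ) :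
        Matrix ι ι ℂ) f J = f I := by
      intro g
      have h2 := congrFun (act_mul (g : Matrix ι ι ℂ)
        ((g⁻¹ : Matrix.unitaryGroup ι ℂ) : Matrix ι ι ℂ) f) I
      have h3' : (g : Matrix ι ι ℂ) * ((g⁻¹ : Matrix.unitaryGroup ι ℂ) : Matrix ι ι ℂ) = 1 := by
        have := congrArg (fun u : Matrix.unitaryGroup ι ℂ => (u : Matrix ι ι ℂ)) (mul_inv_cancel g)
        exact this
      rw [h3', act_one] at h2
      exact h2.symm
    rw [integral_congr_ae (Filter.Eventually.of_forall h1), integral_const, hm]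
    simp
  have e3 : (m : ℂ) * f I - (∑ J, w J) I = ∫ g : Matrix.unitaryGroup ι ℂ, ∑ J : Fin k → ι,
      (∏ r, (g : Matrix ι ι ℂ) (I r) (J r)) * (act ((g⁻¹ : Matrix.unitaryGroup ι ℂ) :
        Matrix ι ι ℂ) f J - s J g⁻¹) ∂(mu ι) := by
    rw [e1, e2, ← integral_sub]
    · refine integral_congr_ae (Filter.Eventually.of_forall fun g => ?_)
      simp only [← Finset.sum_sub_distrib, mul_sub]
    · refine integ (continuous_finsetSum _ fun J _ => ?_)
      exact (continuous_finsetProd _ fun r _ => cont_entry (I r) (J r)).mul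
        ((cont_act f J).comp continuous_inv)
    · exact integ (continuous_finsetSum _ fun J _ => hc1 J)
  have e4 : ‖(m : ℂ) * f I - (∑ J, w J) I‖ ≤ (Fintype.card (Fin k → ι) * ε) * m := by
    rw [e3, hm]
    refine norm_integral_le_of_norm_le_const (Filter.Eventually.of_forall fun g => ?_)
    refine (norm_sum_le _ _).trans ?_
    have h1 : ∀ J ∈ (Finset.univ : Finset (Fin k → ι)),
        ‖(∏ r, (g : Matrix ι ι ℂ) (I r) (J r)) * (act ((g⁻¹ : Matrix.unitaryGroup ι ℂ) :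
        Matrix ι ι ℂ) f J - s J g⁻¹)‖ ≤ ε := by
      intro J _
      rw [norm_mul]
      calc _ ≤ 1 * ε := mul_le_mul (prod_le _ (entry_le g) I J) (hsa J g⁻¹) (norm_nonneg _)
            zero_le_one
        _ = ε := one_mul ε
    refine (Finset.sum_le_sum h1).trans ?_
    rw [Finset.sum_const, nsmul_eq_mul, Finset.card_univ]
  have e5 : f I - ((m : ℂ)⁻¹ • ∑ J, w J) I = (m : ℂ)⁻¹ * ((m : ℂ) * f I - (∑ J, w J) I) := by
    have hm0 : (m : ℂ) ≠ 0 := by exact_mod_cast hmpos.ne'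
    rw [Pi.smul_apply, smul_eq_mul]
    field_simp
  rw [e5, norm_mul, norm_inv, Complex.norm_real, Real.norm_of_nonneg hmpos.le]
  rw [inv_mul_le_iff₀ hmpos]
  linarith

end Avg

theorem t_T0 (h1 : S_sw) (_h2 : S_fix) (h3 : S_eqv) (h4 : S_gl) (h5 : S_lin) : S_T0 := by
  intro ι _ _ A hA k f hf
  have hsep : ∀ J : Fin k → ι, ∀ g h : Matrix.unitaryGroup ι ℂ,
      (∀ s ∈ StarAlgebra.adjoin ℂ (gens A), s g = s h) →
      act (g : Matrix ι ι ℂ) f J = act (h : Matrix ι ι ℂ) f J := by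
    intro J g h hgh
    have ha : ∀ (l : ℕ), ∀ x ∈ A l, act (g : Matrix ι ι ℂ) x = act (h : Matrix ι ι ℂ) x := by
      intro l x hx
      funext I
      exact hgh ⟨_, cont_act x I⟩ (StarAlgebra.subset_adjoin ℂ _ ⟨l, x, hx, I, fun _ => rfl⟩)
    have hg1 : (g : Matrix ι ι ℂ)ᴴ * (g : Matrix ι ι ℂ) = 1 := Matrix.mem_unitaryGroup_iff'.1 g.2
    have hh1 : (h : Matrix ι ι ℂ)ᴴ * (h : Matrix ι ι ℂ) = 1 := Matrix.mem_unitaryGroup_iff'.1 h.2
    have hh2 : (h : Matrix ι ι ℂ) * (h : Matrix ι ι ℂ)ᴴ = 1 := Matrix.mem_unitaryGroup_iff.1 h.2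
    have hU : ((h : Matrix ι ι ℂ)ᴴ * (g : Matrix ι ι ℂ))ᴴ *
        ((h : Matrix ι ι ℂ)ᴴ * (g : Matrix ι ι ℂ)) = 1 := by
      rw [Matrix.conjTranspose_mul, Matrix.conjTranspose_conjTranspose, Matrix.mul_assoc,
        ← Matrix.mul_assoc (h : Matrix ι ι ℂ), hh2, Matrix.one_mul, hg1]
    have h6 := hf ((h : Matrix ι ι ℂ)ᴴ * (g : Matrix ι ι ℂ)) hU (by
      intro l x hx
      rw [act_mul, ha l x hx, ← act_mul, hh1, act_one])
    have h7 : (g : Matrix ι ι ℂ) =
        (h : Matrix ι ι ℂ) * ((h : Matrix ι ι ℂ)ᴴ * (g : Matrix ι ι ℂ)) := by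
      rw [← Matrix.mul_assoc, hh2, Matrix.one_mul]
    rw [h7, act_mul, h6]
  have happ : ∀ ε : ℝ, 0 < ε → ∀ J : Fin k → ι, ∃ s ∈ StarAlgebra.adjoin ℂ (gens A),
      ∀ g : Matrix.unitaryGroup ι ℂ, ‖act (g : Matrix ι ι ℂ) f J - s g‖ ≤ ε := by
    intro ε hε J
    exact h1 (Matrix.unitaryGroup ι ℂ) (StarAlgebra.adjoin ℂ (gens A)) ⟨_, cont_act f J⟩
      (fun x y h => hsep J x y h) ε hε
  have hcl : IsClosed ((A k : Submodule ℂ ((Fin k → ι) → ℂ)) : Set ((Fin k → ι) → ℂ)) :=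
    Submodule.closed_of_finiteDimensional (A k)
  have hmem : f ∈ closure ((A k : Submodule ℂ ((Fin k → ι) → ℂ)) : Set ((Fin k → ι) → ℂ)) := by
    rw [Metric.mem_closure_iff]
    intro ε hε
    set N : ℝ := (Fintype.card (Fin k → ι) : ℝ) with hN
    have hN0 : 0 ≤ N := Nat.cast_nonneg _
    have hδ : 0 < ε / (2 * (N + 1)) := by positivity
    choose s hs hsa using happ _ hδ
    obtain ⟨v, hv, hva⟩ := approx h3 h4 h5 hA f hδ s hs hsa
    refine ⟨v, hv, ?_⟩
    rw [dist_pi_lt_iff hε]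
    intro I
    rw [dist_eq_norm]
    refine (hva I).trans_lt ?_
    rw [← hN, ← mul_div_assoc, div_lt_iff₀ (by positivity)]
    nlinarith
  rw [hcl.closure_eq] at hmem
  exact hmem

end Pool.Agent.Y657.TS
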